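import Pool.Agent.H294R2.BF.L1

/-!
# Degeneracy orders and balanced labellings of the vertices
-/

set_option autoImplicit false
set_option linter.unusedSectionVars false

namespace Pool.Agent.N410.HY

open Finset

/-- halving: the discrepancy of a set system is at most its maximum degree -/
theorem halve {V J : Type} [Fintype V] [DecidableEq V] [Fintype J] (S : J → Finset V) (s : ℕ)
    (h : ∀ u, (univ.filter (fun j => u ∈ S j)).card ≤ s) :
    ∃ B : Finset V, ∀ j, 2 * ((S j).filter (fun u => u ∈ B)).card ≤ (S j).card + s ∧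
      2 * ((S j).filter (fun u => u ∉ B)).card ≤ (S j).card + s := by
  classical
  let eV := Fintype.equivFin V
  let eJ := Fintype.equivFin J
  obtain ⟨χ, hχ, hd⟩ := H294BF.set_signing s
    (fun j : Fin (Fintype.card J) => (S (eJ.symm j)).map eV.toEmbedding) (by
      intro i
      refine le_trans (le_of_eq ?_) (h (eV.symm i))
      refine card_bij (fun j _ => eJ.symm j) ?_ ?_ ?_
      · intro j hj
        rw [mem_filter] at hj ⊢
        refine ⟨mem_univ _, ?_⟩
        obtain ⟨u, hu, hui⟩ := mem_map.1 hj.2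
        have : eV.symm i = u := by
          rw [← hui]
          simp
        rw [this]
        exact hu
      · intro a _ b _ hab
        exact eJ.symm.injective hab
      · intro j hj
        rw [mem_filter] at hj
        refine ⟨eJ j, ?_, by simp⟩
        rw [mem_filter]
        refine ⟨mem_univ _, mem_map.2 ⟨eV.symm i, ?_, by simp⟩⟩
        simpa using hj.2)
  refine ⟨univ.filter (fun u => χ (eV u) = 1), fun j => ?_⟩
  have h1 := hd (eJ j)
  simp only [Equiv.symm_apply_apply, sum_map, Equiv.coe_toEmbedding] at h1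
  set B : Finset V := univ.filter (fun u => χ (eV u) = 1) with hB
  have hBm : ∀ u, u ∈ B ↔ χ (eV u) = 1 := by simp [hB]
  have h2 : ∑ u ∈ S j, χ (eV u) = (((S j).filter (fun u => u ∈ B)).card : ℤ) -
      (((S j).filter (fun u => u ∉ B)).card : ℤ) := by
    rw [← sum_filter_add_sum_filter_not (S j) (fun u => u ∈ B)]
    have e1 : ∑ u ∈ (S j).filter (fun u => u ∈ B), χ (eV u) =
        (((S j).filter (fun u => u ∈ B)).card : ℤ) := by
      have e3 : ∀ u ∈ (S j).filter (fun u => u ∈ B), χ (eV u) = 1 := fun u hu =>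
        (hBm u).1 (mem_filter.1 hu).2
      rw [sum_congr rfl e3]
      simp
    have e2 : ∑ u ∈ (S j).filter (fun u => u ∉ B), χ (eV u) =
        -(((S j).filter (fun u => u ∉ B)).card : ℤ) := by
      have e3 : ∀ u ∈ (S j).filter (fun u => u ∉ B), χ (eV u) = -1 := fun u hu =>
        (hχ (eV u)).resolve_left (fun h3 => (mem_filter.1 hu).2 ((hBm u).2 h3))
      rw [sum_congr rfl e3]
      simp
    rw [e1, e2]
    ring
  have h3 := card_filter_add_card_filter_not (s := S j) (fun u => u ∈ B)
  rw [h2, abs_le] at h1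
  omega

section

variable {V : Type} [Fintype V] [DecidableEq V]

/-- a partition into four parts -/
theorem quarter (S : V → Finset V) (s : ℕ) (h : ∀ u, (univ.filter (fun v => u ∈ S v)).card ≤ s) :
    ∃ b : V → ℕ, (∀ u, b u < 4) ∧
      ∀ v β, 4 * ((S v).filter (fun u => b u = β)).card ≤ (S v).card + 3 * s := by
  classical
  obtain ⟨B1, h1⟩ := halve S s h
  set T : V × Bool → Finset V := fun q =>
    if q.2 then (S q.1).filter (fun u => u ∈ B1) else (S q.1).filter (fun u => u ∉ B1) with hT
  obtain ⟨B2, h2⟩ := halve T s (by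
    intro u
    refine le_trans ?_ (h u)
    refine card_le_card_of_injOn (fun q => q.1) ?_ ?_
    · rintro ⟨v, i⟩ hq
      have hq' := (mem_filter.1 (mem_coe.1 hq)).2
      refine mem_coe.2 (mem_filter.2 ⟨mem_univ _, ?_⟩)
      cases i
      · exact (mem_filter.1 hq').1
      · exact (mem_filter.1 hq').1
    · rintro ⟨v, i⟩ hq ⟨v', i'⟩ hq' hvv
      have a1 := (mem_filter.1 (mem_coe.1 hq)).2
      have a2 := (mem_filter.1 (mem_coe.1 hq')).2
      simp only at hvv
      subst hvv
      cases i <;> cases i'
      · rfl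
      · exact absurd (mem_filter.1 a2).2 (mem_filter.1 a1).2
      · exact absurd (mem_filter.1 a1).2 (mem_filter.1 a2).2
      · rfl)
  refine ⟨fun u => (if u ∈ B1 then 0 else 2) + (if u ∈ B2 then 0 else 1), fun u => ?_, ?_⟩
  · show (if u ∈ B1 then 0 else 2) + (if u ∈ B2 then 0 else 1) < 4
    split_ifs <;> omega
  · intro v β
    show 4 * ((S v).filter (fun u => (if u ∈ B1 then 0 else 2) +
      (if u ∈ B2 then 0 else 1) = β)).card ≤ (S v).card + 3 * s
    have k1 := h1 v
    have k2 := h2 (v, true)
    have k3 := h2 (v, false)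
    have e1 : T (v, true) = (S v).filter (fun u => u ∈ B1) := by simp [hT]
    have e2 : T (v, false) = (S v).filter (fun u => u ∉ B1) := by simp [hT]
    rw [e1, filter_filter, filter_filter] at k2
    rw [e2, filter_filter, filter_filter] at k3
    -- the class `β` is contained in one of the four sets
    have key : ∀ P : V → Prop, [DecidablePred P] → (∀ u, (if u ∈ B1 then 0 else 2) +
        (if u ∈ B2 then 0 else 1) = β → P u) →
        ((S v).filter (fun u => (if u ∈ B1 then 0 else 2) + (if u ∈ B2 then 0 else 1) = β)).card ≤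
        ((S v).filter P).card := by
      intro P _ hP
      refine card_le_card fun u hu => ?_
      obtain ⟨a1, a2⟩ := mem_filter.1 hu
      exact mem_filter.2 ⟨a1, hP u a2⟩
    by_cases hβ0 : β = 0
    · have := key (fun u => u ∈ B1 ∧ u ∈ B2) (fun u hu => by
        split_ifs at hu <;> first | omega | exact ⟨by assumption, by assumption⟩)
      omega
    by_cases hβ1 : β = 1
    · have := key (fun u => u ∈ B1 ∧ u ∉ B2) (fun u hu => by
        split_ifs at hu <;> first | omega | exact ⟨by assumption, by assumption⟩)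
      omega
    by_cases hβ2 : β = 2
    · have := key (fun u => u ∉ B1 ∧ u ∈ B2) (fun u hu => by
        split_ifs at hu <;> first | omega | exact ⟨by assumption, by assumption⟩)
      omega
    by_cases hβ3 : β = 3
    · have := key (fun u => u ∉ B1 ∧ u ∉ B2) (fun u hu => by
        split_ifs at hu <;> first | omega | exact ⟨by assumption, by assumption⟩)
      omega
    · have h0 : (S v).filter (fun u => (if u ∈ B1 then 0 else 2) + (if u ∈ B2 then 0 else 1) = β) =
          ∅ := by
        rw [filter_eq_empty_iff]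
        intro u _ hu
        split_ifs at hu <;> omega
      rw [h0, card_empty]
      omega

/-- a degeneracy order -/
theorem exists_order (G : SimpleGraph V) [DecidableRel G.Adj] (s : ℕ)
    (h : ∀ X : Finset V, X.Nonempty → ∃ v ∈ X, (X.filter (fun u => G.Adj v u)).card ≤ s) (n : ℕ) :
    ∀ X : Finset V, X.card = n → ∃ ρ : V → ℕ, (∀ v ∈ X, ρ v < n) ∧
      (∀ u ∈ X, ∀ v ∈ X, ρ u = ρ v → u = v) ∧
      ∀ v ∈ X, (X.filter (fun u => G.Adj v u ∧ ρ u < ρ v)).card ≤ s := by
  induction n with
  | zero =>
    intro X hX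
    rw [card_eq_zero] at hX
    subst hX
    exact ⟨fun _ => 0, by simp, by simp, by simp⟩
  | succ n ih =>
    intro X hX
    obtain ⟨v0, hv0, hdeg⟩ := h X (card_pos.1 (by omega))
    obtain ⟨ρ, h1, h2, h3⟩ := ih (X.erase v0) (by rw [card_erase_of_mem hv0]; omega)
    have hup : ∀ v, v ≠ v0 → Function.update ρ v0 n v = ρ v := fun v hv =>
      Function.update_of_ne hv _ _
    refine ⟨Function.update ρ v0 n, fun v hv => ?_, fun u hu v hv huv => ?_, fun v hv => ?_⟩
    · by_cases hvv : v = v0
      · rw [hvv, Function.update_self]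
        omega
      · rw [hup v hvv]
        have := h1 v (mem_erase.2 ⟨hvv, hv⟩)
        omega
    · by_cases hu0 : u = v0 <;> by_cases hv0' : v = v0
      · rw [hu0, hv0']
      · rw [hu0, Function.update_self, hup v hv0'] at huv
        have := h1 v (mem_erase.2 ⟨hv0', hv⟩)
        omega
      · rw [hv0', Function.update_self, hup u hu0] at huv
        have := h1 u (mem_erase.2 ⟨hu0, hu⟩)
        omega
      · rw [hup u hu0, hup v hv0'] at huv
        exact h2 u (mem_erase.2 ⟨hu0, hu⟩) v (mem_erase.2 ⟨hv0', hv⟩) huv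
    · by_cases hvv : v = v0
      · refine le_trans (card_le_card fun u hu => ?_) hdeg
        obtain ⟨a1, a2, _⟩ := mem_filter.1 hu
        exact mem_filter.2 ⟨a1, hvv ▸ a2⟩
      · refine le_trans (card_le_card fun u hu => ?_) (h3 v (mem_erase.2 ⟨hvv, hv⟩))
        obtain ⟨a1, a2, a3⟩ := mem_filter.1 hu
        rw [hup v hvv] at a3
        have hu0 : u ≠ v0 := by
          rintro rfl
          rw [Function.update_self] at a3
          have := h1 v (mem_erase.2 ⟨hvv, hv⟩)
          omega
        rw [hup u hu0] at a3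
        exact mem_filter.2 ⟨mem_erase.2 ⟨hu0, a1⟩, a2, a3⟩

/-- a proper labelling with given blocks -/
theorem exists_label (G : SimpleGraph V) [DecidableRel G.Adj] (s ℓ : ℕ) (hℓ : s + 1 ≤ ℓ)
    (ρ : V → ℕ) (hρ : ∀ u v, ρ u = ρ v → u = v)
    (hs : ∀ v, (univ.filter (fun u => G.Adj v u ∧ ρ u < ρ v)).card ≤ s) (b : V → ℕ) (n : ℕ) :
    ∃ c : V → ℕ, ∀ v, ρ v < n → ℓ * b v ≤ c v ∧ c v < ℓ * b v + ℓ ∧
      ∀ u, G.Adj v u → ρ u < ρ v → c v ≠ c u := by
  classical
  induction n with
  | zero => exact ⟨fun _ => 0, fun v hv => absurd hv (Nat.not_lt_zero _)⟩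
  | succ n ih =>
    obtain ⟨c, hc⟩ := ih
    by_cases hex : ∃ v0, ρ v0 = n
    · obtain ⟨v0, hv0⟩ := hex
      obtain ⟨t, ht1, ht2⟩ := exists_mem_notMem_of_card_lt_card
        (s := (univ.filter (fun u => G.Adj v0 u ∧ ρ u < ρ v0)).image c)
        (t := Ico (ℓ * b v0) (ℓ * b v0 + ℓ)) (by
          rw [Nat.card_Ico]
          have h1 : ((univ.filter (fun u => G.Adj v0 u ∧ ρ u < ρ v0)).image c).card ≤ s :=
            card_image_le.trans (hs v0)
          omega)
      rw [mem_Ico] at ht1
      have hup : ∀ v, v ≠ v0 → Function.update c v0 t v = c v := fun v hv =>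
        Function.update_of_ne hv _ _
      refine ⟨Function.update c v0 t, fun v hv => ?_⟩
      by_cases hvv : v = v0
      · subst hvv
        rw [Function.update_self]
        refine ⟨ht1.1, ht1.2, fun u hu hlt h => ht2 ?_⟩
        have hne : u ≠ v := fun h1 => by rw [h1] at hlt; exact lt_irrefl _ hlt
        rw [hup u hne] at h
        exact mem_image.2 ⟨u, mem_filter.2 ⟨mem_univ _, hu, hlt⟩, h.symm⟩
      · have hlt : ρ v < n := by
          have h1 : ρ v ≠ n := fun h1 => hvv (hρ v v0 (by omega))
          omega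
        obtain ⟨h1, h2, h3⟩ := hc v hlt
        rw [hup v hvv]
        refine ⟨h1, h2, fun u hu hlt' => ?_⟩
        have hne : u ≠ v0 := fun h4 => by rw [h4, hv0] at hlt'; omega
        rw [hup u hne]
        exact h3 u hu hlt'
    · push Not at hex
      refine ⟨c, fun v hv => hc v ?_⟩
      have := hex v
      omega

end

end Pool.Agent.N410.HY
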