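import Pool.Agent.N410.HY.Match
import Pool.Agent.N410.HY.Bal

/-!
# Peeling off matchings with the low labels
-/

set_option autoImplicit false
set_option linter.unusedSectionVars false

namespace Pool.Agent.N410.HY

open Finset Pool.Agent.N410.TE

variable {V : Type} [Fintype V] [DecidableEq V]

/-- the label `γ` is allowed at the edges at `v` (the vertices outside `T` have no labels) -/
def Al (T : Finset V) (p : ℕ) (c : V → ℕ) (γ : ℕ) (v : V) : Prop :=
  v ∉ T ∨ γ + p ≤ c v ∨ c v + p ≤ γ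

instance (T : Finset V) (p : ℕ) (c : V → ℕ) (γ : ℕ) (v : V) : Decidable (Al T p c γ v) := by
  unfold Al
  infer_instance

/-- the number of the allowed labels in `[i, m)` -/
def cnt (T : Finset V) (p : ℕ) (c : V → ℕ) (m i : ℕ) (v : V) : ℕ :=
  ((Ico i m).filter (fun γ => Al T p c γ v)).card

theorem cnt_succ (T : Finset V) (p : ℕ) (c : V → ℕ) (m i : ℕ) (v : V) (hi : i < m) :
    cnt T p c m i v = cnt T p c m (i + 1) v + (if Al T p c i v then 1 else 0) := by
  unfold cnt
  rw [← insert_Ico_add_one_left_eq_Ico hi, filter_insert]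
  split_ifs with h
  · rw [card_insert_of_notMem]
    intro h1
    have := (mem_Ico.1 (mem_filter.1 h1).1).1
    omega
  · rw [add_zero]

theorem cnt_zero (T : Finset V) (p : ℕ) (c : V → ℕ) (m : ℕ) (v : V) :
    m ≤ cnt T p c m 0 v + (2 * p - 1) := by
  unfold cnt
  have h1 := card_filter_add_card_filter_not (s := Ico 0 m) (fun γ => Al T p c γ v)
  rw [Nat.card_Ico] at h1
  have h2 : ((Ico 0 m).filter (fun γ => ¬ Al T p c γ v)).card ≤ 2 * p - 1 := by
    have h3 : (Ico 0 m).filter (fun γ => ¬ Al T p c γ v) ⊆ Ico (c v + 1 - p) (c v + p) := by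
      intro γ hγ
      have h4 := (mem_filter.1 hγ).2
      unfold Al at h4
      push Not at h4
      rw [mem_Ico]
      omega
    refine (card_le_card h3).trans ?_
    rw [Nat.card_Ico]
    omega
  omega

theorem dE_eq_card (R : Finset (Sym2 V)) (v : V) :
    dE R v = (univ.filter (fun u => s(v, u) ∈ R)).card := by
  unfold dE
  rw [← card_image_of_injective (univ.filter (fun u => s(v, u) ∈ R))
    (f := fun u => s(v, u)) (fun a b hab => Sym2.congr_right.1 hab)]
  congr 1
  ext e
  rw [mem_filter, mem_image]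
  constructor
  · rintro ⟨he, u, rfl⟩
    exact ⟨u, mem_filter.2 ⟨mem_univ _, he⟩, rfl⟩
  · rintro ⟨u, hu, rfl⟩
    exact ⟨(mem_filter.1 hu).2, Sym2.mem_mk_left _ _⟩

theorem iterate (EG : Finset (Sym2 V)) (hdiag : ∀ e ∈ EG, ¬ e.IsDiag) (ρ : V → ℕ)
    (hρ : ∀ u v, ρ u = ρ v → u = v) (T : Finset V) (c : V → ℕ) (p s w W m : ℕ) (hs : 1 ≤ s)
    (hT : ∀ v, w + 1 ≤ dE EG v → v ∈ T)
    (hpar : ∀ u, (T.filter (fun v => s(u, v) ∈ EG ∧ ρ v < ρ u)).card ≤ s)
    (hear : ∀ v ∈ T, (univ.filter (fun u => s(v, u) ∈ EG ∧ ρ u < ρ v)).card ≤ s)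
    (hwin : ∀ v ∈ T, ∀ γ,
      (univ.filter (fun u => s(v, u) ∈ EG ∧ ρ v < ρ u ∧ ¬ Al T p c γ u)).card ≤ W)
    (hw : 2 * s + W ≤ w + 1) (hstart : ∀ v, dE EG v ≤ w + cnt T p c m 0 v) (i : ℕ) : i ≤ m →
    ∃ R ⊆ EG, ∃ g : Sym2 V → ℕ, (∀ e ∈ EG, e ∉ R → g e < i ∧ ∀ v ∈ e, Al T p c (g e) v) ∧
      (∀ e ∈ EG, ∀ f ∈ EG, e ∉ R → f ∉ R → e ≠ f → ∀ v, v ∈ e → v ∈ f → g e ≠ g f) ∧
      ∀ v, dE R v ≤ w + cnt T p c m i v := by
  induction i with
  | zero =>
    intro _
    exact ⟨EG, Subset.refl _, fun _ => 0, fun e he he' => absurd he he',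
      fun e he f hf he' => absurd he he', hstart⟩
  | succ i ih =>
    intro him
    obtain ⟨R, hR, g, h1, h2, h3⟩ := ih (by omega)
    set F : Finset V := univ.filter (fun v => Al T p c i v ∧ dE R v = w + cnt T p c m i v) with hF
    have hFm : ∀ v, v ∈ F ↔ Al T p c i v ∧ dE R v = w + cnt T p c m i v := by simp [hF]
    have hFT : ∀ v ∈ F, v ∈ T ∧ w + 1 ≤ dE R v := by
      intro v hv
      obtain ⟨a1, a2⟩ := (hFm v).1 hv
      have a3 := cnt_succ T p c m i v (by omega)
      rw [if_pos a1] at a3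
      have a4 := dE_mono hR v
      exact ⟨hT v (by omega), by omega⟩
    obtain ⟨N, hN, n1, n2, n3⟩ := cover R ρ (fun v => Al T p c i v) F s hs (fun u => by
        refine le_trans (card_le_card fun v hv => ?_) (hpar u)
        obtain ⟨a0, a1, a2⟩ := mem_filter.1 hv
        exact mem_filter.2 ⟨(hFT v a0).1, hR a1, a2⟩) (fun v hv => ((hFm v).1 hv).1) (by
      intro v hv
      obtain ⟨hvT, a2⟩ := hFT v hv
      rw [dE_eq_card] at a2
      have a4 : (univ.filter (fun u => s(v, u) ∈ R)).card ≤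
          (univ.filter (fun u => s(v, u) ∈ EG ∧ ρ u < ρ v)).card +
          (univ.filter (fun u => s(v, u) ∈ EG ∧ ρ v < ρ u ∧ ¬ Al T p c i u)).card +
          (univ.filter (fun u => s(v, u) ∈ R ∧ ρ v < ρ u ∧ Al T p c i u)).card := by
        refine le_trans (card_le_card fun u hu => ?_) ((card_union_le _ _).trans
          (Nat.add_le_add_right (card_union_le _ _) _))
        have hu' := (mem_filter.1 hu).2
        have hne : ρ u ≠ ρ v := by
          intro h
          have h4 := hρ u v h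
          exact hdiag _ (hR hu') (by rw [Sym2.mk_isDiag_iff]; exact h4.symm)
        rw [mem_union, mem_union]
        rcases Nat.lt_or_gt_of_ne hne with h | h
        · exact Or.inl (Or.inl (mem_filter.2 ⟨mem_univ _, hR hu', h⟩))
        · by_cases hA : Al T p c i u
          · exact Or.inr (mem_filter.2 ⟨mem_univ _, hu', h, hA⟩)
          · exact Or.inl (Or.inr (mem_filter.2 ⟨mem_univ _, hR hu', h, hA⟩))
      have a5 := hear v hvT
      have a6 := hwin v hvT i
      omega)
    refine ⟨R \ N, sdiff_subset.trans hR, fun e => if e ∈ N then i else g e, ?_, ?_, ?_⟩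
    · intro e he heR
      by_cases heN : e ∈ N
      · simp only [heN, if_true]
        exact ⟨by omega, n2 e heN⟩
      · have heR' : e ∉ R := fun h => heR (mem_sdiff.2 ⟨h, heN⟩)
        simp only [heN, if_false]
        obtain ⟨b1, b2⟩ := h1 e he heR'
        exact ⟨by omega, b2⟩
    · intro e he f hf heR hfR hef v hve hvf
      by_cases heN : e ∈ N <;> by_cases hfN : f ∈ N
      · exact absurd (n1 e heN f hfN v hve hvf) hef
      · simp only [heN, if_true, hfN, if_false]
        have hfR' : f ∉ R := fun h => hfR (mem_sdiff.2 ⟨h, hfN⟩)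
        have := (h1 f hf hfR').1
        omega
      · simp only [heN, if_false, hfN, if_true]
        have heR' : e ∉ R := fun h => heR (mem_sdiff.2 ⟨h, heN⟩)
        have := (h1 e he heR').1
        omega
      · simp only [heN, if_false, hfN]
        exact h2 e he f hf (fun h => heR (mem_sdiff.2 ⟨h, heN⟩))
          (fun h => hfR (mem_sdiff.2 ⟨h, hfN⟩)) hef v hve hvf
    · intro v
      have b1 := h3 v
      have b2 := cnt_succ T p c m i v (by omega)
      have b3 : dE (R \ N) v ≤ dE R v := dE_mono sdiff_subset v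
      by_cases hA : Al T p c i v
      · rw [if_pos hA] at b2
        by_cases hcr : dE R v = w + cnt T p c m i v
        · obtain ⟨e, heN, hve⟩ := n3 v ((hFm v).2 ⟨hA, hcr⟩)
          have b4 : dE (R \ N) v + 1 ≤ dE R v :=
            dE_lt sdiff_subset (hN heN) (fun h => (mem_sdiff.1 h).2 heN) hve
          omega
        · omega
      · rw [if_neg hA] at b2
        omega

/-- the vertices with labels near `γ` are in two blocks -/
theorem window {ℓ p : ℕ} (hℓ : 2 * p - 1 ≤ ℓ) (hℓ1 : 1 ≤ ℓ) {T : Finset V} (c b : V → ℕ)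
    (hb : ∀ v, ℓ * b v ≤ c v ∧ c v < ℓ * b v + ℓ) (γ : ℕ) (u : V) (hu : ¬ Al T p c γ u) :
    b u = (γ + 1 - p) / ℓ ∨ b u = (γ + 1 - p) / ℓ + 1 := by
  unfold Al at hu
  push Not at hu
  obtain ⟨h1, h2⟩ := hb u
  have hbu : b u = c u / ℓ := by
    symm
    rw [Nat.div_eq_iff (by omega)]
    constructor
    · rw [Nat.mul_comm]
      exact h1
    · rw [Nat.mul_comm]
      omega
  set x := γ + 1 - p with hx
  have h3 : x ≤ c u := by omega
  have h4 : c u < x + ℓ := by omega
  rw [hbu]
  have h5 : x / ℓ ≤ c u / ℓ := Nat.div_le_div_right h3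
  have h6 : c u / ℓ ≤ x / ℓ + 1 := by
    rw [← Nat.add_div_right x (by omega)]
    exact Nat.div_le_div_right h4.le
  omega

end Pool.Agent.N410.HY
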