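import Pool.Agent.N410.HY.Iter
import Pool.Agent.H238R2.HY.Struct

/-!
# (p,1)-total labellings of graphs whose edges at the vertices of large degree are sparse
-/

set_option autoImplicit false
set_option linter.unusedSectionVars false

namespace Pool.Agent.N410.HY

open Finset Pool.Agent.N410.TE

variable {V : Type} [Fintype V] [DecidableEq V]

/-- Vizing's theorem for sets of edges -/
theorem viz (R : Finset (Sym2 V)) (hdiag : ∀ e ∈ R, ¬ e.IsDiag) (w : ℕ) (h : ∀ v, dE R v ≤ w) :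
    ∃ g : Sym2 V → ℕ, (∀ e ∈ R, g e ≤ w) ∧
      ∀ e ∈ R, ∀ f ∈ R, e ≠ f → ∀ v, v ∈ e → v ∈ f → g e ≠ g f := by
  classical
  set Γ : SimpleGraph V := SimpleGraph.fromEdgeSet (R : Set (Sym2 V)) with hΓ
  have hadj : ∀ u v, Γ.Adj u v ↔ s(u, v) ∈ R := by
    intro u v
    rw [hΓ, SimpleGraph.fromEdgeSet_adj, mem_coe]
    refine ⟨fun h => h.1, fun h => ⟨h, fun huv => hdiag _ h ?_⟩⟩
    rw [Sym2.mk_isDiag_iff]
    exact huv
  obtain ⟨c, h1, h2, h3⟩ := Pool.Agent.H238R2.HY.vizing Γ w (by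
    intro v
    refine le_trans (le_of_eq ?_) (h v)
    rw [dE_eq_card, ← SimpleGraph.card_neighborFinset_eq_degree]
    congr 1
    ext u
    rw [SimpleGraph.mem_neighborFinset, mem_filter, hadj]
    simp)
  refine ⟨Sym2.lift ⟨c, h1⟩, ?_, ?_⟩
  · intro e he
    induction e using Sym2.ind with
    | _ a b =>
      rw [Sym2.lift_mk]
      exact h2 a b ((hadj a b).2 he)
  · intro e he f hf hef v hve hvf
    obtain ⟨a, rfl⟩ := hve
    obtain ⟨b, rfl⟩ := hvf
    rw [Sym2.lift_mk, Sym2.lift_mk]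
    refine h3 v a b ((hadj v a).2 he) ((hadj v b).2 hf) ?_
    rintro rfl
    exact hef rfl

/-- partial labellings: the vertices of `T` and all edges are labelled -/
structure Part (G : SimpleGraph V) (T : Finset V) (p L : ℕ) (c : V → ℕ) (g : Sym2 V → ℕ) :
    Prop where
  cle : ∀ v ∈ T, c v ≤ L
  gle : ∀ e ∈ G.edgeSet, g e ≤ L
  adj : ∀ u ∈ T, ∀ v ∈ T, G.Adj u v → c u ≠ c v
  edg : ∀ u v w, G.Adj u v → G.Adj u w → v ≠ w → g s(u, v) ≠ g s(u, w)
  inc : ∀ v ∈ T, ∀ u, G.Adj v u → c v + p ≤ g s(v, u) ∨ g s(v, u) + p ≤ c v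

/-- label the remaining vertices, which have small degree -/
theorem finish (G : SimpleGraph V) [DecidableRel G.Adj] (T : Finset V) (p L : ℕ) (hp : 1 ≤ p)
    (hsmall : ∀ v, v ∉ T → 2 * p * G.degree v < L + 1) {c : V → ℕ} {g : Sym2 V → ℕ}
    (h : Part G T p L c g) (X : Finset V) : ∃ c', Part G (T ∪ X) p L c' g := by
  classical
  induction X using Finset.induction_on with
  | empty => exact ⟨c, by rw [union_empty]; exact h⟩
  | @insert x X hx ih =>
    obtain ⟨c1, h1⟩ := ih
    rw [union_insert]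
    by_cases hxT : x ∈ T ∪ X
    · rw [insert_eq_of_mem hxT]
      exact ⟨c1, h1⟩
    have hxT' : x ∉ T := fun h2 => hxT (mem_union_left _ h2)
    set B : Finset ℕ := (G.neighborFinset x).image c1 ∪
      (G.neighborFinset x).biUnion (fun u => Ico (g s(x, u) + 1 - p) (g s(x, u) + p)) with hB
    have hBc : B.card < (range (L + 1)).card := by
      rw [card_range]
      refine lt_of_le_of_lt ?_ (hsmall x hxT')
      have e1 : ((G.neighborFinset x).image c1).card ≤ G.degree x := by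
        rw [← SimpleGraph.card_neighborFinset_eq_degree]
        exact card_image_le
      have e2 : ((G.neighborFinset x).biUnion
          (fun u => Ico (g s(x, u) + 1 - p) (g s(x, u) + p))).card ≤ G.degree x * (2 * p - 1) := by
        rw [← SimpleGraph.card_neighborFinset_eq_degree]
        refine card_biUnion_le_card_mul _ _ _ fun u _ => ?_
        rw [Nat.card_Ico]
        omega
      have e3 := card_union_le ((G.neighborFinset x).image c1) ((G.neighborFinset x).biUnion
          (fun u => Ico (g s(x, u) + 1 - p) (g s(x, u) + p)))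
      have e4 : G.degree x + G.degree x * (2 * p - 1) = 2 * p * G.degree x := by
        obtain ⟨q, rfl⟩ : ∃ q, p = q + 1 := ⟨p - 1, by omega⟩
        have : 2 * (q + 1) - 1 = 2 * q + 1 := by omega
        rw [this]
        ring
      rw [← hB] at e3
      omega
    obtain ⟨t, ht1, ht2⟩ := exists_mem_notMem_of_card_lt_card hBc
    rw [mem_range] at ht1
    rw [hB, mem_union, not_or] at ht2
    obtain ⟨ht2, ht3⟩ := ht2
    have hup : ∀ v, v ≠ x → Function.update c1 x t v = c1 v := fun v hv =>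
      Function.update_of_ne hv _ _
    have hnb : ∀ v, G.Adj x v → t ≠ c1 v := fun v hv h2 =>
      ht2 (mem_image.2 ⟨v, (G.mem_neighborFinset x v).2 hv, h2.symm⟩)
    refine ⟨Function.update c1 x t, ?_, h1.gle, ?_, h1.edg, ?_⟩
    · intro v hv
      by_cases hvx : v = x
      · rw [hvx, Function.update_self]
        omega
      · rw [hup v hvx]
        exact h1.cle v ((mem_insert.1 hv).resolve_left hvx)
    · intro u hu v hv huv
      by_cases hux : u = x
      · subst hux
        rw [Function.update_self, hup v huv.ne']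
        exact hnb v huv
      · by_cases hvx : v = x
        · subst hvx
          rw [Function.update_self, hup u hux]
          exact (hnb u huv.symm).symm
        · rw [hup u hux, hup v hvx]
          exact h1.adj u ((mem_insert.1 hu).resolve_left hux) v
            ((mem_insert.1 hv).resolve_left hvx) huv
    · intro v hv u huv
      by_cases hvx : v = x
      · subst hvx
        rw [Function.update_self]
        by_contra hcon
        push Not at hcon
        refine ht3 (mem_biUnion.2 ⟨u, (G.mem_neighborFinset v u).2 huv, ?_⟩)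
        rw [mem_Ico]
        omega
      · rw [hup v hvx]
        exact h1.inc v ((mem_insert.1 hv).resolve_left hvx) u huv

/-- the degeneracy condition for the edges which meet `T` -/
def Deg (G : SimpleGraph V) [DecidableRel G.Adj] (T : Finset V) (s : ℕ) : Prop :=
  ∀ X : Finset V, X.Nonempty → ∃ v ∈ X,
    (X.filter (fun u => G.Adj v u ∧ (v ∈ T ∨ u ∈ T))).card ≤ s

/-- the graph of the edges which meet `T` -/
def G1 (G : SimpleGraph V) (T : Finset V) : SimpleGraph V where
  Adj u v := G.Adj u v ∧ (u ∈ T ∨ v ∈ T)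
  symm := ⟨fun _ _ h => ⟨h.1.symm, h.2.symm⟩⟩
  loopless := ⟨fun a h => G.loopless.irrefl a h.1⟩

instance (G : SimpleGraph V) [DecidableRel G.Adj] (T : Finset V) : DecidableRel (G1 G T).Adj :=
  fun u v => inferInstanceAs (Decidable (G.Adj u v ∧ (u ∈ T ∨ v ∈ T)))

theorem order (G : SimpleGraph V) [DecidableRel G.Adj] (T : Finset V) (s : ℕ) (h : Deg G T s) :
    ∃ ρ : V → ℕ, (∀ v, ρ v < Fintype.card V) ∧ (∀ u v, ρ u = ρ v → u = v) ∧
      ∀ v, (univ.filter (fun u => (G1 G T).Adj v u ∧ ρ u < ρ v)).card ≤ s := by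
  obtain ⟨ρ, h1, h2, h3⟩ := exists_order (G1 G T) s h (Fintype.card V) univ card_univ
  exact ⟨ρ, fun v => h1 v (mem_univ _), fun u v => h2 u (mem_univ _) v (mem_univ _),
    fun v => h3 v (mem_univ _)⟩

/-- the case `p > s` -/
theorem part_of_lt (G : SimpleGraph V) [DecidableRel G.Adj] (T : Finset V) (D p s : ℕ)
    (hD : ∀ v, G.degree v ≤ D) (hdeg : Deg G T s) (hsp : s < p) :
    ∃ c g, Part G T p (D + 2 * p - 1) c g := by
  classical
  obtain ⟨ρ, hρ1, hρ2, hρ3⟩ := order G T s hdeg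
  obtain ⟨c, hc⟩ := exists_label (G1 G T) s (s + 1) le_rfl ρ hρ2 hρ3 (fun _ => 0) (Fintype.card V)
  have hEG : ∀ e, e ∈ (univ.filter (fun e => e ∈ G.edgeSet) : Finset (Sym2 V)) ↔ e ∈ G.edgeSet := by
    simp
  obtain ⟨g, hg1, hg2⟩ := viz (univ.filter (fun e => e ∈ G.edgeSet) : Finset (Sym2 V))
    (fun e he => G.not_isDiag_of_mem_edgeSet ((hEG e).1 he)) D (by
      intro v
      refine le_trans (le_of_eq ?_) (hD v)
      rw [dE_eq_card, ← SimpleGraph.card_neighborFinset_eq_degree]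
      congr 1
      ext u
      simp)
  refine ⟨c, fun e => s + p + g e, ?_, ?_, ?_, ?_, ?_⟩
  · intro v _
    have h1 := (hc v (hρ1 v)).2.1
    omega
  · intro e he
    have h1 := hg1 e ((hEG e).2 he)
    show s + p + g e ≤ D + 2 * p - 1
    omega
  · intro u hu v hv huv
    rcases Nat.lt_trichotomy (ρ u) (ρ v) with h | h | h
    · exact ((hc v (hρ1 v)).2.2 u ⟨huv.symm, Or.inl hv⟩ h).symm
    · exact absurd (hρ2 u v h) huv.ne
    · exact (hc u (hρ1 u)).2.2 v ⟨huv, Or.inl hu⟩ h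
  · intro u v w huv huw hvw h
    have h' : s + p + g s(u, v) = s + p + g s(u, w) := h
    refine hg2 _ ((hEG _).2 huv) _ ((hEG _).2 huw) (fun h2 => hvw (Sym2.congr_right.1 h2)) u
      (Sym2.mem_mk_left _ _) (Sym2.mem_mk_left _ _) (by omega)
  · intro v _ u huv
    left
    have h1 := (hc v (hρ1 v)).2.1
    show c v + p ≤ s + p + g s(v, u)
    omega

/-- the case `p ≤ s` -/
theorem part_of_le (G : SimpleGraph V) [DecidableRel G.Adj] (T : Finset V) (D p s : ℕ)
    (hp : 1 ≤ p) (hps : p ≤ s) (hD : ∀ v, G.degree v ≤ D)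
    (hT : ∀ v, D + 2 * p ≤ 2 * p * G.degree v → v ∈ T) (hdeg : Deg G T s)
    (h1 : 15 * s + 6 ≤ D + 2 * p) (h2 : 14 * p + 7 * s ≤ D + 10) :
    ∃ c g, Part G T p (D + 2 * p - 1) c g := by
  classical
  obtain ⟨ρ, hρ1, hρ2, hρ3⟩ := order G T s hdeg
  -- blocks
  set S : V → Finset V := fun v => univ.filter (fun u => v ∈ T ∧ u ∈ T ∧ G.Adj v u ∧ ρ v < ρ u)
    with hS
  have hSm : ∀ v u, u ∈ S v ↔ v ∈ T ∧ u ∈ T ∧ G.Adj v u ∧ ρ v < ρ u := by simp [hS]
  have hSc : ∀ v, (S v).card ≤ D := by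
    intro v
    refine le_trans ?_ (hD v)
    rw [← SimpleGraph.card_neighborFinset_eq_degree]
    refine card_le_card fun u hu => ?_
    rw [SimpleGraph.mem_neighborFinset]
    exact ((hSm v u).1 hu).2.2.1
  obtain ⟨b, hb4, hb⟩ := quarter S s (by
    intro u
    refine le_trans (card_le_card fun v hv => ?_) (hρ3 u)
    have h3 := (hSm v u).1 (mem_filter.1 hv).2
    exact mem_filter.2 ⟨mem_univ _, ⟨h3.2.2.1.symm, Or.inl h3.2.1⟩, h3.2.2.2⟩)
  obtain ⟨ℓ, hℓ1, hℓ2, hℓ3⟩ : ∃ ℓ, s + 1 ≤ ℓ ∧ 2 * p - 1 ≤ ℓ ∧ 8 * ℓ + 7 * s ≤ D + 2 * p + 2 := by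
    rcases Nat.le_total (s + 1) (2 * p - 1) with h | h
    · exact ⟨2 * p - 1, h, le_rfl, by omega⟩
    · exact ⟨s + 1, le_rfl, h, by omega⟩
  obtain ⟨c, hc⟩ := exists_label (G1 G T) s ℓ hℓ1 ρ hρ2 hρ3 b (Fintype.card V)
  have hcb : ∀ v, ℓ * b v ≤ c v ∧ c v < ℓ * b v + ℓ := fun v =>
    ⟨(hc v (hρ1 v)).1, (hc v (hρ1 v)).2.1⟩
  have hc4 : ∀ v, c v < 4 * ℓ := by
    intro v
    have h3 := (hcb v).2
    have h4 : ℓ * b v ≤ ℓ * 3 := Nat.mul_le_mul_left _ (by have := hb4 v; omega)
    omega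
  set EG : Finset (Sym2 V) := univ.filter (fun e => e ∈ G.edgeSet) with hEGd
  have hEG : ∀ e, e ∈ EG ↔ e ∈ G.edgeSet := by simp [hEGd]
  have hdE : ∀ v, dE EG v = G.degree v := by
    intro v
    rw [dE_eq_card, ← SimpleGraph.card_neighborFinset_eq_degree]
    congr 1
    ext u
    simp [hEG]
  have hdiag : ∀ e ∈ EG, ¬ e.IsDiag := fun e he => G.not_isDiag_of_mem_edgeSet ((hEG e).1 he)
  obtain ⟨w, hw⟩ : ∃ w, w + 4 * ℓ = D + p := ⟨D + p - 4 * ℓ, by omega⟩
  obtain ⟨m, hm⟩ : ∃ m, m + 1 = 4 * ℓ + p := ⟨4 * ℓ + p - 1, by omega⟩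
  obtain ⟨R, hR, g, hg1, hg2, hg3⟩ := iterate EG hdiag ρ hρ2 T c p s w ((D + 3 * s) / 2) m
    (by omega) (by
      intro v hv
      rw [hdE] at hv
      refine hT v ?_
      have h3 : D + 7 * s ≤ 2 * G.degree v := by omega
      have h4 : p * (D + 7 * s) ≤ p * (2 * G.degree v) := Nat.mul_le_mul_left _ h3
      have h5 : 1 * D ≤ p * D := Nat.mul_le_mul_right _ hp
      have h6 : p * 2 ≤ p * (7 * s) := Nat.mul_le_mul_left _ (by omega)
      have h7 : p * (D + 7 * s) = p * D + p * (7 * s) := Nat.mul_add _ _ _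
      have h8 : p * (2 * G.degree v) = 2 * p * G.degree v := by ring
      omega) (by
      intro u
      refine le_trans (card_le_card fun v hv => ?_) (hρ3 u)
      obtain ⟨a1, a2, a3⟩ := mem_filter.1 hv
      exact mem_filter.2 ⟨mem_univ _, ⟨(hEG _).1 a2, Or.inr a1⟩, a3⟩) (by
      intro v hv
      refine le_trans (card_le_card fun u hu => ?_) (hρ3 v)
      obtain ⟨_, a2, a3⟩ := mem_filter.1 hu
      exact mem_filter.2 ⟨mem_univ _, ⟨(hEG _).1 a2, Or.inl hv⟩, a3⟩) (by
      intro v hv γ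
      have h3 := hb v ((γ + 1 - p) / ℓ)
      have h4 := hb v ((γ + 1 - p) / ℓ + 1)
      have h5 := hSc v
      have h6 : (univ.filter (fun u => s(v, u) ∈ EG ∧ ρ v < ρ u ∧ ¬ Al T p c γ u)).card ≤
          ((S v).filter (fun u => b u = (γ + 1 - p) / ℓ)).card +
          ((S v).filter (fun u => b u = (γ + 1 - p) / ℓ + 1)).card := by
        refine le_trans (card_le_card fun u hu => ?_) (card_union_le _ _)
        obtain ⟨_, a2, a3, a4⟩ := mem_filter.1 hu
        have huT : u ∈ T := by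
          by_contra hcon
          exact a4 (Or.inl hcon)
        have huS : u ∈ S v := (hSm v u).2 ⟨hv, huT, (hEG _).1 a2, a3⟩
        rw [mem_union]
        rcases window hℓ2 (by omega) c b hcb γ u a4 with h | h
        · exact Or.inl (mem_filter.2 ⟨huS, h⟩)
        · exact Or.inr (mem_filter.2 ⟨huS, h⟩)
      omega) (by omega) (by
      intro v
      rw [hdE]
      have h3 := cnt_zero T p c m v
      have h4 := hD v
      omega) m le_rfl
  have hRw : ∀ v, dE R v ≤ w := by
    intro v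
    have h3 := hg3 v
    have h4 : cnt T p c m m v = 0 := by
      unfold cnt
      rw [Ico_self, filter_empty, card_empty]
    omega
  obtain ⟨g2, hv1, hv2⟩ := viz R (fun e he => hdiag e (hR he)) w hRw
  refine ⟨c, fun e => if e ∈ R then m + g2 e else g e, ?_, ?_, ?_, ?_, ?_⟩
  · intro v _
    have h3 := hc4 v
    omega
  · intro e he
    show (if e ∈ R then m + g2 e else g e) ≤ D + 2 * p - 1
    split_ifs with heR
    · have h3 := hv1 e heR
      omega
    · have h3 := (hg1 e ((hEG e).2 he) heR).1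
      omega
  · intro u hu v hv huv
    rcases Nat.lt_trichotomy (ρ u) (ρ v) with h | h | h
    · exact ((hc v (hρ1 v)).2.2 u ⟨huv.symm, Or.inl hv⟩ h).symm
    · exact absurd (hρ2 u v h) huv.ne
    · exact (hc u (hρ1 u)).2.2 v ⟨huv, Or.inl hu⟩ h
  · intro u v w' huv huw hvw
    have e1 : s(u, v) ∈ EG := (hEG _).2 huv
    have e2 : s(u, w') ∈ EG := (hEG _).2 huw
    have e3 : s(u, v) ≠ s(u, w') := fun h2 => hvw (Sym2.congr_right.1 h2)
    show (if s(u, v) ∈ R then m + g2 s(u, v) else g s(u, v)) ≠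
      (if s(u, w') ∈ R then m + g2 s(u, w') else g s(u, w'))
    split_ifs with a1 a2 a2
    · have := hv2 _ a1 _ a2 e3 u (Sym2.mem_mk_left _ _) (Sym2.mem_mk_left _ _)
      omega
    · have := (hg1 _ e2 a2).1
      omega
    · have := (hg1 _ e1 a1).1
      omega
    · exact hg2 _ e1 _ e2 a1 a2 e3 u (Sym2.mem_mk_left _ _) (Sym2.mem_mk_left _ _)
  · intro v hv u huv
    show c v + p ≤ (if s(v, u) ∈ R then m + g2 s(v, u) else g s(v, u)) ∨
      (if s(v, u) ∈ R then m + g2 s(v, u) else g s(v, u)) + p ≤ c v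
    split_ifs with a1
    · left
      have h3 := hc4 v
      omega
    · have h3 := (hg1 _ ((hEG _).2 huv) a1).2 v (Sym2.mem_mk_left _ _)
      rcases h3 with h3 | h3 | h3
      · exact absurd hv h3
      · exact Or.inr h3
      · exact Or.inl h3

end Pool.Agent.N410.HY
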