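import Pool.Agent.N410.TE.Greedy

/-!
# Matchings which cover given vertices of a degenerate graph
-/

set_option autoImplicit false
set_option linter.unusedSectionVars false

namespace Pool.Agent.N410.HY

open Finset Pool.Agent.N410.TE

variable {V : Type} [Fintype V] [DecidableEq V]


theorem alternate (ρ : V → ℕ) (f : V → V) (n : ℕ) : ∀ F : Finset V, F.card = n →
    (∀ v ∈ F, ρ v < ρ (f v)) → (∀ u ∈ F, ∀ v ∈ F, f u = f v → u = v) →
    ∃ M ⊆ F, (∀ v ∈ M, f v ∉ M) ∧ ∀ v ∈ F, v ∈ M ∨ ∃ v' ∈ M, f v' = v := by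
  induction n using Nat.strong_induction_on with
  | _ n ih =>
    intro F hn hlt hinj
    rcases F.eq_empty_or_nonempty with rfl | hne
    · exact ⟨∅, Subset.refl _, by simp, by simp⟩
    obtain ⟨v0, hv0, hmin⟩ := exists_min_image F ρ hne
    have hsub : (F.erase v0).erase (f v0) ⊆ F := (erase_subset _ _).trans (erase_subset _ _)
    have hc : ((F.erase v0).erase (f v0)).card < n := by
      rw [← hn]
      exact card_lt_card ⟨hsub, fun h => (mem_erase.1 (mem_erase.1 (h hv0)).2).1 rfl⟩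
    obtain ⟨M, hM, h1, h2⟩ := ih _ hc ((F.erase v0).erase (f v0)) rfl
      (fun v hv => hlt v (hsub hv)) (fun u hu v hv => hinj u (hsub hu) v (hsub hv))
    have hM0 : ∀ v ∈ M, f v ≠ v0 := by
      intro v hv h
      have h3 := hlt v (hsub (hM hv))
      have h4 := hmin v (hsub (hM hv))
      rw [h] at h3
      omega
    refine ⟨insert v0 M, insert_subset hv0 (hM.trans hsub), ?_, ?_⟩
    · intro v hv
      rw [mem_insert, not_or]
      rcases mem_insert.1 hv with rfl | hv
      · refine ⟨fun h => ?_, fun h => (mem_erase.1 (hM h)).1 rfl⟩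
        have h3 := hlt v hv0
        rw [h] at h3
        exact lt_irrefl _ h3
      · exact ⟨hM0 v hv, h1 v hv⟩
    · intro v hv
      by_cases hvv : v = v0
      · exact Or.inl (mem_insert.2 (Or.inl hvv))
      by_cases hvf : v = f v0
      · exact Or.inr ⟨v0, mem_insert_self _ _, hvf.symm⟩
      rcases h2 v (mem_erase.2 ⟨hvf, mem_erase.2 ⟨hvv, hv⟩⟩) with h | ⟨v', hv', h⟩
      · exact Or.inl (mem_insert_of_mem h)
      · exact Or.inr ⟨v', mem_insert_of_mem hv', h⟩

/-- Hall's theorem: every vertex has at least `s` candidates, every candidate is used at most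
`s` times -/
theorem inject (T : V → Finset V) (F : Finset V) (s : ℕ) (hs : 1 ≤ s)
    (h1 : ∀ v ∈ F, s ≤ (T v).card)
    (h2 : ∀ u, (F.filter (fun v => u ∈ T v)).card ≤ s) :
    ∃ f : V → V, (∀ v ∈ F, f v ∈ T v) ∧ ∀ u ∈ F, ∀ v ∈ F, f u = f v → u = v := by
  classical
  have hall : ∃ g : {x // x ∈ F} → V, Function.Injective g ∧ ∀ x, g x ∈ T x.1 := by
    apply (Finset.all_card_le_biUnion_card_iff_exists_injective _).1
    intro S
    have e1 : S.card * s ≤ ∑ y ∈ S, (T y.1).card := by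
      rw [← smul_eq_mul, ← Finset.sum_const]
      exact Finset.sum_le_sum fun y _ => h1 y.1 y.2
    set N := S.biUnion (fun y => T y.1) with hN
    have e2 : ∑ y ∈ S, (T y.1).card ≤ ∑ x ∈ N, (F.filter (fun v => x ∈ T v)).card := by
      have e3 : ∀ y ∈ S, (T y.1).card = (N.filter (fun x => x ∈ T y.1)).card := by
        intro y hy
        congr 1
        ext x
        simp only [mem_filter, hN, mem_biUnion]
        exact ⟨fun h => ⟨⟨y, hy, h⟩, h⟩, fun h => h.2⟩
      rw [Finset.sum_congr rfl e3]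
      simp_rw [Finset.card_filter]
      rw [Finset.sum_comm]
      apply Finset.sum_le_sum
      intro x _
      rw [← Finset.card_filter, ← Finset.card_filter]
      apply Finset.card_le_card_of_injOn (fun y => y.1)
      · intro y hy
        have hy' := Finset.mem_filter.1 (Finset.mem_coe.1 hy)
        exact Finset.mem_coe.2 (Finset.mem_filter.2 ⟨y.2, hy'.2⟩)
      · intro a _ b _ hab
        exact Subtype.ext hab
    have e4 : ∑ x ∈ N, (F.filter (fun v => x ∈ T v)).card ≤ N.card * s := by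
      rw [← smul_eq_mul, ← Finset.sum_const]
      exact Finset.sum_le_sum fun x _ => h2 x
    exact Nat.le_of_mul_le_mul_right (e1.trans (e2.trans e4)) hs
  obtain ⟨g, hg1, hg2⟩ := hall
  refine ⟨fun v => if h : v ∈ F then g ⟨v, h⟩ else v, fun v hv => ?_, fun u hu v hv h => ?_⟩
  · simp only [hv, dif_pos]
    exact hg2 ⟨v, hv⟩
  · simp only [hu, hv, dif_pos] at h
    exact congrArg Subtype.val (hg1 h)

/-- a matching of `R` which avoids the vertices not satisfying `P` and covers `F` -/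
theorem cover (R : Finset (Sym2 V)) (ρ : V → ℕ) (P : V → Prop) [DecidablePred P] (F : Finset V)
    (s : ℕ) (hs : 1 ≤ s)
    (hpar : ∀ u, (F.filter (fun v => s(u, v) ∈ R ∧ ρ v < ρ u)).card ≤ s)
    (hF : ∀ v ∈ F, P v)
    (hcand : ∀ v ∈ F, s ≤ (univ.filter (fun u => s(v, u) ∈ R ∧ ρ v < ρ u ∧ P u)).card) :
    ∃ N ⊆ R, (∀ e ∈ N, ∀ f ∈ N, ∀ v, v ∈ e → v ∈ f → e = f) ∧ (∀ e ∈ N, ∀ v ∈ e, P v) ∧
      ∀ v ∈ F, ∃ e ∈ N, v ∈ e := by
  classical
  obtain ⟨f, hf1, hf2⟩ := inject
    (fun v => univ.filter (fun u => s(v, u) ∈ R ∧ ρ v < ρ u ∧ P u)) F s hs hcand (by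
      intro u
      refine le_trans (card_le_card fun v hv => ?_) (hpar u)
      have h1 := (mem_filter.1 (mem_filter.1 hv).2).2
      refine mem_filter.2 ⟨(mem_filter.1 hv).1, ?_, h1.2.1⟩
      rw [Sym2.eq_swap]
      exact h1.1)
  have hf : ∀ v ∈ F, s(v, f v) ∈ R ∧ ρ v < ρ (f v) ∧ P (f v) := fun v hv =>
    (mem_filter.1 (hf1 v hv)).2
  obtain ⟨M, hMF, hM1, hM2⟩ := alternate ρ f F.card F rfl (fun v hv => (hf v hv).2.1) hf2
  refine ⟨M.image (fun v => s(v, f v)), ?_, ?_, ?_, ?_⟩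
  · intro e he
    obtain ⟨v, hv, rfl⟩ := mem_image.1 he
    exact (hf v (hMF hv)).1
  · intro e he e' he' w hw hw'
    obtain ⟨v, hv, rfl⟩ := mem_image.1 he
    obtain ⟨v', hv', rfl⟩ := mem_image.1 he'
    rcases Sym2.mem_iff.1 hw with h1 | h1 <;> rcases Sym2.mem_iff.1 hw' with h2 | h2
    · rw [← h1, ← h2]
    · exact absurd hv (by rw [← h1, h2]; exact hM1 v' hv')
    · exact absurd hv' (by rw [← h2, h1]; exact hM1 v hv)
    · rw [hf2 v (hMF hv) v' (hMF hv') (h1.symm.trans h2)]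
  · intro e he w hw
    obtain ⟨v, hv, rfl⟩ := mem_image.1 he
    rcases Sym2.mem_iff.1 hw with rfl | rfl
    · exact hF _ (hMF hv)
    · exact (hf v (hMF hv)).2.2
  · intro v hv
    rcases hM2 v hv with h | ⟨v', hv', h⟩
    · exact ⟨_, mem_image_of_mem _ h, Sym2.mem_mk_left _ _⟩
    · exact ⟨_, mem_image_of_mem _ hv', by rw [h]; exact Sym2.mem_mk_right _ _⟩

end Pool.Agent.N410.HY
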